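import Pool.Agent.MWBN.Stmts

/-!
# MWBN, row SHN: an interior occurrence commutes with its neighbour
-/

set_option autoImplicit false

namespace Pool.Agent.MWBN.H32

open Pool.Agent.Helper14_MV Pool.Agent.Helper2_MV Pool.Agent.MVO Pool.Agent.MWL Pool.Agent.MWS

theorem repmerge (a i j : ℕ) (l : List ℕ) :
    List.replicate i a ++ (List.replicate j a ++ l) = List.replicate (i + j) a ++ l := by
  rw [← List.append_assoc, List.replicate_append_replicate]

/-- rule L -/
theorem ruleL {k : ℕ} {β : FIC} (hβ : ClW (k + 1) β) (A : List ℕ) (x : ℕ) (t : List ℕ) :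
    RR β (A ++ (List.replicate (k + 1) x ++ (A ++ (List.replicate (k + 1) x ++ t))))
      (A ++ (List.replicate (k + 2) x ++ (A ++ (List.replicate k x ++ t)))) := by
  have h := hβ.f1.sub (fun i => if i = 0 then A ++ List.replicate k x else [x])
  have h' := h.append (RR.refl (β := β) t)
  have e1 : (List.replicate (k + 1) x : List ℕ) = List.replicate k x ++ [x] := List.replicate_succ'
  have e2 : (List.replicate (k + 2) x : List ℕ) = List.replicate k x ++ [x] ++ [x] := by
    rw [List.replicate_succ', List.replicate_succ']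
  rw [e1, e2]
  simpa using h'

/-- rule R -/
theorem ruleR {k : ℕ} {β : FIC} (hβ : ClW (k + 1) β) (A : List ℕ) (x : ℕ) (t : List ℕ) :
    RR β (List.replicate (k + 1) x ++ (A ++ (List.replicate (k + 1) x ++ (A ++ t))))
      (List.replicate k x ++ (A ++ (List.replicate (k + 2) x ++ (A ++ t)))) := by
  have h := hβ.f0.sub (fun i => if i = 0 then [x] else List.replicate k x ++ A)
  have h' := h.append (RR.refl (β := β) t)
  have e1 : (List.replicate (k + 1) x : List ℕ) = x :: List.replicate k x := List.replicate_succ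
  have e2 : (List.replicate (k + 2) x : List ℕ) = x :: x :: List.replicate k x := by
    rw [List.replicate_succ, List.replicate_succ]
  rw [e1, e2]
  simpa using h'

theorem shn (hI : IdnStmt) (hE : ElnStmt) : ShnStmt := by
  intro n β hβ p u q x b hx hc
  by_cases hbx : b = x
  · subst hbx
    exact RR.refl _
  obtain ⟨k, rfl⟩ : ∃ k, n = k + 1 := ⟨n - 1, by have := hβ.pos; omega⟩
  -- the words
  set W : List ℕ → List ℕ := fun Y => p ++ x :: (u ++ (Y ++ q)) with hW
  have hctx : ∀ Y Y' : List ℕ, RR β Y Y' → RR β (W Y) (W Y') := by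
    intro Y Y' h
    have h1 := ((RR.refl (β := β) (p ++ x :: u)).append h).append (RR.refl (β := β) q)
    simpa [hW] using h1
  have hb : b ∈ p ∨ b ∈ u ∨ b ∈ q := by
    have h2 := hc b (Or.inr rfl)
    by_contra hn
    push Not at hn
    rw [List.count_append, List.count_cons_of_ne (Ne.symm hbx), List.count_append, List.count_cons_self,
      List.count_cons_of_ne (Ne.symm hbx), List.count_eq_zero_of_not_mem hn.1,
      List.count_eq_zero_of_not_mem hn.2.1, List.count_eq_zero_of_not_mem hn.2.2] at h2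
    omega
  have hq1 : 1 ≤ q.count x := List.count_pos_iff.2 hx
  have hb1 : 1 ≤ p.count b + u.count b + q.count b := by
    rcases hb with h | h | h
    · have := List.count_pos_iff.2 h
      omega
    · have := List.count_pos_iff.2 h
      omega
    · have := List.count_pos_iff.2 h
      omega
  -- insertion of `x^n`
  have hin : ∀ s t : List ℕ, (∀ c ∈ s, c = x ∨ c = b) → 1 ≤ s.count b + t.count b →
      RR β (W (s ++ t)) (W (s ++ (List.replicate (k + 1) x ++ t))) := by
    intro s t hs hst
    have h1 := hE (k + 1) β hβ (u ++ s) p (t ++ q) x (List.mem_append_right _ hx) (by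
      intro c hcc
      simp only [List.count_append, List.count_cons]
      by_cases hcx : c = x
      · subst hcx
        simp
        omega
      by_cases hcb : c = b
      · subst hcb
        omega
      · have h2 := hc c (Or.inl (by
          rcases List.mem_append.1 hcc with h | h
          · exact h
          · rcases hs c h with h | h
            · exact absurd h hcx
            · exact absurd h hcb))
        rw [List.count_append, List.count_cons_of_ne (Ne.symm hcx), List.count_append,
          List.count_cons_of_ne (Ne.symm hcb), List.count_cons_of_ne (Ne.symm hcx)] at h2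
        omega)
    simpa [hW] using h1
  have hidb : ∀ s t : List ℕ, ∀ m : ℕ,
      RR β (W (s ++ (b :: t))) (W (s ++ (List.replicate ((k + 1) * m + 1) b ++ t))) := by
    intro s t m
    have h1 := hI (k + 1) β hβ.pos hβ.ap hβ.be (p ++ x :: (u ++ s)) (t ++ q) b (by
      rcases hb with h | h | h
      · exact Or.inl (List.mem_append_left _ h)
      · exact Or.inl (List.mem_append_right _ (List.mem_cons_of_mem _ (List.mem_append_left _ h)))
      · exact Or.inr (List.mem_append_right _ h)) m
    simpa [hW] using h1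
  have hidx : ∀ s t : List ℕ, ∀ m : ℕ,
      RR β (W (s ++ (x :: t))) (W (s ++ (List.replicate ((k + 1) * m + 1) x ++ t))) := by
    intro s t m
    have h1 := hI (k + 1) β hβ.pos hβ.ap hβ.be (p ++ x :: (u ++ s)) (t ++ q) x
      (Or.inr (List.mem_append_right _ hx)) m
    simpa [hW] using h1
  set R : ℕ → List ℕ := fun m => List.replicate m x with hR
  set B : ℕ → List ℕ := fun m => List.replicate m b with hB
  have hRm : ∀ i j l, R i ++ (R j ++ l) = R (i + j) ++ l := fun i j l => repmerge x i j l
  have hBm : ∀ i j l, B i ++ (B j ++ l) = B (i + j) ++ l := fun i j l => repmerge b i j l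
  have hcB : ∀ m, (B m).count b = m := by
    intro m
    simp [hB]
  have hcR : ∀ m, (R m).count b = 0 := by
    intro m
    simp only [hR]
    rw [List.count_replicate]
    simp [Ne.symm hbx]
  have hmB : ∀ m, ∀ c ∈ B m, c = x ∨ c = b := by
    intro m c hcm
    exact Or.inr (List.eq_of_mem_replicate hcm)
  have hmR : ∀ m, ∀ c ∈ R m, c = x ∨ c = b := by
    intro m c hcm
    exact Or.inl (List.eq_of_mem_replicate hcm)
  have hcN : ∀ i, 1 ≤ i → 1 ≤ (B i).count b := by
    intro i hi
    rw [hcB]
    exact hi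
  have s1 := hidb [] [x] 2
  have s2 := hidx (B ((k + 1) * 2 + 1)) [] 1
  have e2 : W (B ((k + 1) * 2 + 1) ++ (R ((k + 1) * 1 + 1) ++ [])) =
      W ([] ++ (B 1 ++ (B (k + 1) ++ (B (k + 1) ++ R (k + 2))))) := by
    simp only [hW, List.append_assoc, hRm, hBm, List.nil_append, List.append_nil]
    ring_nf
  have s3 := hin [] (B 1 ++ (B (k + 1) ++ (B (k + 1) ++ R (k + 2)))) (by simp)
    (by simp only [List.count_append, hcB, hcR]; omega)
  have e3 : W ([] ++ (R (k + 1) ++ (B 1 ++ (B (k + 1) ++ (B (k + 1) ++ R (k + 2)))))) =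
      W ((R (k + 1) ++ B 1) ++ (B (k + 1) ++ (B (k + 1) ++ R (k + 2)))) := by
    simp only [hW, List.append_assoc, List.nil_append]
  have s4 := hin (R (k + 1) ++ B 1) (B (k + 1) ++ (B (k + 1) ++ R (k + 2)))
    (by
      intro c hc'
      rcases List.mem_append.1 hc' with h | h
      · exact hmR _ c h
      · exact hmB _ c h)
    (by simp only [List.count_append, hcB, hcR]; omega)
  have e4 : W ((R (k + 1) ++ B 1) ++ (R (k + 1) ++ (B (k + 1) ++ (B (k + 1) ++ R (k + 2))))) =
      W ((R (k + 1) ++ (B 1 ++ (R (k + 1) ++ B (k + 1)))) ++ (B (k + 1) ++ R (k + 2))) := by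
    simp only [hW, List.append_assoc]
  have s5 := hin (R (k + 1) ++ (B 1 ++ (R (k + 1) ++ B (k + 1)))) (B (k + 1) ++ R (k + 2))
    (by
      intro c hc'
      simp only [List.mem_append] at hc'
      rcases hc' with h | h | h | h
      · exact hmR _ c h
      · exact hmB _ c h
      · exact hmR _ c h
      · exact hmB _ c h)
    (by simp only [List.count_append, hcB, hcR]; omega)
  have e5 : W ((R (k + 1) ++ (B 1 ++ (R (k + 1) ++ B (k + 1)))) ++
      (R (k + 1) ++ (B (k + 1) ++ R (k + 2)))) =
      W ((R (k + 1) ++ (B 1 ++ R (k + 1))) ++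
        (B (k + 1) ++ (R (k + 1) ++ (B (k + 1) ++ (R (k + 1) ++ R 1))))) := by
    simp only [hW, List.append_assoc, hRm, hBm]
  have s6 := hctx _ _ ((RR.refl (β := β) (R (k + 1) ++ (B 1 ++ R (k + 1)))).append
    (ruleL hβ (B (k + 1)) x (R 1)))
  have e6 : W ((R (k + 1) ++ (B 1 ++ R (k + 1))) ++
      (B (k + 1) ++ (R (k + 2) ++ (B (k + 1) ++ (R k ++ R 1))))) =
      W ((R (k + 1) ++ (B 1 ++ R 1)) ++
        (R k ++ (B (k + 1) ++ (R (k + 2) ++ (B (k + 1) ++ R (k + 1)))))) := by
    simp only [hW, List.append_assoc, hRm, hBm]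
    ring_nf
  have s7 := hctx _ _ ((RR.refl (β := β) (R (k + 1) ++ (B 1 ++ R 1))).append
    (ruleR hβ (B (k + 1)) x (R (k + 1))).symm)
  have e7 : W ((R (k + 1) ++ (B 1 ++ R 1)) ++
      (R (k + 1) ++ (B (k + 1) ++ (R (k + 1) ++ (B (k + 1) ++ R (k + 1)))))) =
      W (R 1 ++ (R k ++ (B 1 ++ (R (k + 2) ++ (B 1 ++
        (B k ++ (R (k + 1) ++ (B (k + 1) ++ R (k + 1))))))))) := by
    simp only [hW, List.append_assoc, hRm, hBm]
    ring_nf
  have s8 := hctx _ _ ((RR.refl (β := β) (R 1)).append
    (ruleR hβ (B 1) x (B k ++ (R (k + 1) ++ (B (k + 1) ++ R (k + 1))))).symm)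
  have e8 : W (R 1 ++ (R (k + 1) ++ (B 1 ++ (R (k + 1) ++ (B 1 ++
      (B k ++ (R (k + 1) ++ (B (k + 1) ++ R (k + 1))))))))) =
      W (R 1 ++ (R (k + 1) ++ (B 1 ++ (R (k + 1) ++ (B (k + 1) ++
        (R (k + 1) ++ (B (k + 1) ++ R (k + 1)))))))) := by
    simp only [hW, List.append_assoc, hRm, hBm]
    ring_nf
  have s9 := hin (R 1) (B 1 ++ (R (k + 1) ++ (B (k + 1) ++ (R (k + 1) ++ (B (k + 1) ++ R (k + 1))))))
    (hmR _) (by simp only [List.count_append, hcB, hcR]; omega)
  have e9 : W (R 1 ++ (B 1 ++ (R (k + 1) ++ (B (k + 1) ++ (R (k + 1) ++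
      (B (k + 1) ++ R (k + 1))))))) =
      W ((R 1 ++ B 1) ++ (R (k + 1) ++ (B (k + 1) ++ (R (k + 1) ++ (B (k + 1) ++ R (k + 1)))))) := by
    simp only [hW, List.append_assoc]
  have s10 := hin (R 1 ++ B 1) (B (k + 1) ++ (R (k + 1) ++ (B (k + 1) ++ R (k + 1))))
    (by
      intro c hc'
      rcases List.mem_append.1 hc' with h | h
      · exact hmR _ c h
      · exact hmB _ c h)
    (by simp only [List.count_append, hcB, hcR]; omega)
  have e10 : W ((R 1 ++ B 1) ++ (B (k + 1) ++ (R (k + 1) ++ (B (k + 1) ++ R (k + 1))))) =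
      W ((R 1 ++ (B 1 ++ B (k + 1))) ++ (R (k + 1) ++ (B (k + 1) ++ R (k + 1)))) := by
    simp only [hW, List.append_assoc]
  have s11 := hin (R 1 ++ (B 1 ++ B (k + 1))) (B (k + 1) ++ R (k + 1))
    (by
      intro c hc'
      simp only [List.mem_append] at hc'
      rcases hc' with h | h | h
      · exact hmR _ c h
      · exact hmB _ c h
      · exact hmB _ c h)
    (by simp only [List.count_append, hcB, hcR]; omega)
  have e11 : W ((R 1 ++ (B 1 ++ B (k + 1))) ++ (B (k + 1) ++ R (k + 1))) =
      W ((R 1 ++ (B 1 ++ (B (k + 1) ++ B (k + 1)))) ++ (R (k + 1) ++ [])) := by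
    simp only [hW, List.append_assoc, List.append_nil, List.nil_append]
  have s12 := hin (R 1 ++ (B 1 ++ (B (k + 1) ++ B (k + 1)))) []
    (by
      intro c hc'
      simp only [List.mem_append] at hc'
      rcases hc' with h | h | h | h
      · exact hmR _ c h
      · exact hmB _ c h
      · exact hmB _ c h
      · exact hmB _ c h)
    (by simp only [List.count_append, hcB, hcR]; omega)
  have e12 : W ((R 1 ++ (B 1 ++ (B (k + 1) ++ B (k + 1)))) ++ []) =
      W (R 1 ++ (B ((k + 1) * 2 + 1) ++ [])) := by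
    simp only [hW, List.append_assoc, List.append_nil, List.nil_append, hRm, hBm]
    ring_nf
  have s13 := hidb (R 1) [] 2
  rw [e2] at s2
  rw [e3] at s3
  rw [e4] at s4
  rw [e5] at s5
  rw [e6] at s6
  rw [e7] at s7
  rw [e8] at s8
  rw [e9] at s9
  rw [e10] at s10
  rw [e11] at s11
  rw [e12] at s12
  have t1 : RR β (W [b, x]) (W [x, b]) :=
    β.trans s1 <| β.trans s2 <| β.trans s3 <| β.trans s4 <| β.trans s5 <| β.trans s6 <|
    β.trans s7 <| β.trans s8 <| β.trans s9.symm <| β.trans s10.symm <| β.trans s11.symm <|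
    β.trans s12.symm s13.symm
  exact t1

end Pool.Agent.MWBN.H32
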